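import Pool.Agent.helper76.FF2.Spec

/-!
# Row PFD of project FF2
-/

set_option autoImplicit false

namespace Pool.Agent.FF2

open Polynomial

theorem PFD_ne {K : Type*} [Field K] (B : Finset K) : pol B ≠ 0 := by
  unfold pol
  exact Finset.prod_ne_zero_iff.mpr fun x _ => X_sub_C_ne_zero x

theorem PFD_eval_ne {K : Type*} [Field K] (B : Finset K) (x : K) (hx : x ∉ B) :
    (pol B).eval x ≠ 0 := by
  unfold pol
  rw [eval_prod]
  refine Finset.prod_ne_zero_iff.mpr fun b hb => ?_
  rw [eval_sub, eval_X, eval_C]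
  intro h
  have : x = b := sub_eq_zero.mp h
  exact hx (this ▸ hb)

theorem PFD_erase {K : Type*} [Field K] [DecidableEq K] (B : Finset K) (b : K) (hb : b ∈ B) :
    pol B = (X - C b) * pol (B.erase b) := by
  unfold pol
  exact (Finset.mul_prod_erase B _ hb).symm

theorem PFD_deg {K : Type*} [Field K] (u v w : K[X]) (hw : w ≠ 0) (h : u.degree < v.degree) :
    (u * w).degree < (v * w).degree := by
  have hv : v ≠ 0 := by
    rintro rfl
    rw [degree_zero] at h
    exact not_lt_bot h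
  by_cases hu : u = 0
  · rw [hu, zero_mul, degree_zero]
    exact bot_lt_iff_ne_bot.mpr (degree_ne_bot.mpr (mul_ne_zero hv hw))
  · apply degree_lt_degree
    rw [natDegree_mul hu hw, natDegree_mul hv hw]
    have := natDegree_lt_natDegree hu h
    omega

theorem PFD_lin {K : Type*} [Field K] (α γ b : K) :
    (C α + C γ * (X - C b)).degree < ((X - C b) ^ 2).degree := by
  have h1 : ((X - C b) ^ 2).degree = 2 := by
    rw [degree_pow, degree_X_sub_C]; rfl
  rw [h1]
  have h2 : (C α + C γ * (X - C b)).degree ≤ 1 := by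
    refine le_trans (degree_add_le _ _) (max_le ?_ ?_)
    · exact le_trans degree_C_le (by norm_num)
    · refine le_trans (degree_mul_le _ _) ?_
      rw [degree_X_sub_C]
      calc (C γ).degree + 1 ≤ 0 + 1 := by gcongr; exact degree_C_le
        _ = 1 := by norm_num
  exact lt_of_le_of_lt h2 (by norm_num)

theorem PFD (K : Type*) [Field K] [CharP K 2] (h1 : WWW_stmt K) : PFD_stmt K := by
  classical
  intro A E s w₁ w₂ B R₁ R₂ H
  have hE0 : E ≠ 0 := H.hE.ne_zero
  have hs0 : s ≠ 0 := H.hs.ne_zero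
  have hD0 : E ^ 2 * s ≠ 0 := mul_ne_zero (pow_ne_zero _ hE0) hs0
  have hP0 : pol B ^ 2 ≠ 0 := pow_ne_zero _ (PFD_ne B)
  have key : ∀ (F : K → K) (g : K[X]), g.degree < (pol B ^ 2 * (E ^ 2 * s)).degree →
      (∀ x : K, x ∉ B → (pol B).eval x ≠ 0 → E.eval x ≠ 0 → s.eval x ≠ 0 →
        F x = g.eval x / (pol B ^ 2 * (E ^ 2 * s)).eval x) →
      ∑ x ∈ R₁, F x = ∑ x ∈ R₂, F x := by
    intro F g hg hF
    have h := h1 A E s w₁ w₂ B R₁ R₂ H g hg
    have e1 : ∑ x ∈ R₁, F x = ∑ x ∈ R₁, g.eval x / (pol B ^ 2 * (E ^ 2 * s)).eval x :=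
      Finset.sum_congr rfl fun x hx => by
        obtain ⟨a, b, c⟩ := H.hR1 x hx
        exact hF x a (PFD_eval_ne B x a) b c
    have e2 : ∑ x ∈ R₂, F x = ∑ x ∈ R₂, g.eval x / (pol B ^ 2 * (E ^ 2 * s)).eval x :=
      Finset.sum_congr rfl fun x hx => by
        obtain ⟨a, b, c⟩ := H.hR2 x hx
        exact hF x a (PFD_eval_ne B x a) b c
    rw [e1, e2, h]
  refine ⟨?_, ?_, ?_, ?_, ?_⟩
  · intro b hb α γ
    have hQ0 : pol (B.erase b) ≠ 0 := PFD_ne _
    have hB : pol B = (X - C b) * pol (B.erase b) := PFD_erase B b hb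
    refine key _ ((C α + C γ * (X - C b)) * (pol (B.erase b) ^ 2 * (E ^ 2 * s))) ?_ ?_
    · have e : pol B ^ 2 * (E ^ 2 * s) = (X - C b) ^ 2 * (pol (B.erase b) ^ 2 * (E ^ 2 * s)) := by
        rw [hB]; ring
      rw [e]
      exact PFD_deg _ _ _ (mul_ne_zero (pow_ne_zero _ hQ0) hD0) (PFD_lin α γ b)
    · intro x hx hPx hEx hsx
      have e1 : (pol B).eval x = (x + b) * (pol (B.erase b)).eval x := by
        rw [hB, eval_mul, eval_sub, eval_X, eval_C, CharTwo.sub_eq_add]
      have hxb : x + b ≠ 0 := by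
        intro h0
        rw [e1, h0, zero_mul] at hPx
        exact hPx rfl
      have hQx : (pol (B.erase b)).eval x ≠ 0 := by
        intro h0
        rw [e1, h0, mul_zero] at hPx
        exact hPx rfl
      simp only [eval_mul, eval_pow, eval_add, eval_C, eval_sub, eval_X]
      rw [e1, CharTwo.sub_eq_add]
      field_simp
  · intro b hb c hc hbc α γ α' γ'
    have hc' : c ∈ B.erase b := Finset.mem_erase.mpr ⟨fun h => hbc h.symm, hc⟩
    have hQ0 : pol ((B.erase b).erase c) ≠ 0 := PFD_ne _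
    have hB : pol B = (X - C b) * ((X - C c) * pol ((B.erase b).erase c)) := by
      rw [PFD_erase B b hb, PFD_erase _ c hc']
    refine key _ ((C α + C γ * (X - C b)) * ((C α' + C γ' * (X - C c)) *
      (pol ((B.erase b).erase c) ^ 2 * (E ^ 2 * s)))) ?_ ?_
    · have e : pol B ^ 2 * (E ^ 2 * s) = (X - C b) ^ 2 * ((X - C c) ^ 2 *
          (pol ((B.erase b).erase c) ^ 2 * (E ^ 2 * s))) := by
        rw [hB]; ring
      rw [e]
      have hW : pol ((B.erase b).erase c) ^ 2 * (E ^ 2 * s) ≠ 0 :=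
        mul_ne_zero (pow_ne_zero _ hQ0) hD0
      by_cases hl : (C α' + C γ' * (X - C c)) = 0
      · rw [hl, zero_mul, mul_zero, degree_zero]
        refine bot_lt_iff_ne_bot.mpr (degree_ne_bot.mpr ?_)
        exact mul_ne_zero (pow_ne_zero _ (X_sub_C_ne_zero b))
          (mul_ne_zero (pow_ne_zero _ (X_sub_C_ne_zero c)) hW)
      · refine lt_trans (PFD_deg _ _ _ (mul_ne_zero hl hW) (PFD_lin α γ b)) ?_
        have h2 := PFD_deg _ _ _ (mul_ne_zero (pow_ne_zero 2 (X_sub_C_ne_zero b)) hW)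
          (PFD_lin α' γ' c)
        have e1 : (X - C b) ^ 2 * ((C α' + C γ' * (X - C c)) *
            (pol ((B.erase b).erase c) ^ 2 * (E ^ 2 * s))) = (C α' + C γ' * (X - C c)) *
            ((X - C b) ^ 2 * (pol ((B.erase b).erase c) ^ 2 * (E ^ 2 * s))) := by ring
        have e2 : (X - C b) ^ 2 * ((X - C c) ^ 2 * (pol ((B.erase b).erase c) ^ 2 *
            (E ^ 2 * s))) = (X - C c) ^ 2 *
            ((X - C b) ^ 2 * (pol ((B.erase b).erase c) ^ 2 * (E ^ 2 * s))) := by ring
        rw [e1, e2]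
        exact h2
    · intro x hx hPx hEx hsx
      have e1 : (pol B).eval x = (x + b) * ((x + c) * (pol ((B.erase b).erase c)).eval x) := by
        rw [hB, eval_mul, eval_mul, eval_sub, eval_sub, eval_X, eval_C, eval_C,
          CharTwo.sub_eq_add, CharTwo.sub_eq_add]
      have hxb : x + b ≠ 0 := by
        intro h0
        rw [e1, h0, zero_mul] at hPx
        exact hPx rfl
      have hxc : x + c ≠ 0 := by
        intro h0
        rw [e1, h0, zero_mul, mul_zero] at hPx
        exact hPx rfl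
      have hQx : (pol ((B.erase b).erase c)).eval x ≠ 0 := by
        intro h0
        rw [e1, h0, mul_zero, mul_zero] at hPx
        exact hPx rfl
      simp only [eval_mul, eval_pow, eval_add, eval_C, eval_sub, eval_X]
      rw [e1, CharTwo.sub_eq_add, CharTwo.sub_eq_add]
      field_simp
  · intro N hN
    refine key _ (N * (E ^ 2 * s)) (PFD_deg _ _ _ hD0 hN) ?_
    intro x hx hPx hEx hsx
    simp only [eval_mul, eval_pow]
    field_simp
  · intro N hN
    refine key _ (N * pol B ^ 2) ?_ ?_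
    · rw [mul_comm (pol B ^ 2)]
      exact PFD_deg _ _ _ hP0 hN
    · intro x hx hPx hEx hsx
      simp only [eval_mul, eval_pow]
      field_simp
  · intro N N'' hN hN''
    refine key _ (N * N'') ?_ ?_
    · by_cases hz : N'' = 0
      · rw [hz, mul_zero, degree_zero]
        exact bot_lt_iff_ne_bot.mpr (degree_ne_bot.mpr (mul_ne_zero hP0 hD0))
      · refine lt_trans (PFD_deg _ _ _ hz hN) ?_
        rw [mul_comm (pol B ^ 2) N'', mul_comm (pol B ^ 2) (E ^ 2 * s)]
        exact PFD_deg _ _ _ hP0 hN''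
    · intro x hx hPx hEx hsx
      simp only [eval_mul, eval_pow]
      field_simp

end Pool.Agent.FF2
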