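import Pool.Agent.helper76.FF2.Spec

/-!
# Row RTS of project FF2
-/

set_option autoImplicit false

namespace Pool.Agent.FF2

open Polynomial

theorem RTS_mem {F : Type*} [Field F] [Fintype F] (G : F[X]) (hG : G ≠ 0)
    (x : AlgebraicClosure F) : x ∈ rs G ↔ aeval x G = 0 := by
  classical
  unfold rs
  rw [Multiset.mem_toFinset, mem_aroots]
  exact ⟨fun h => h.2, fun h => ⟨hG, h⟩⟩

theorem RTS_image {F : Type*} [Field F] [Fintype F] [DecidableEq (AlgebraicClosure F)]
    (G : F[X]) (hG : G ≠ 0) :
    (rs G).image (fun x : AlgebraicClosure F => x ^ Fintype.card F) = rs G := by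
  have hinj : Function.Injective (fun x : AlgebraicClosure F => x ^ Fintype.card F) := by
    have := helper36.FF.pow_card_pow_injective (F := F) 1
    simpa using this
  refine Finset.eq_of_subset_of_card_le ?_ ?_
  · intro y hy
    obtain ⟨x, hx, rfl⟩ := Finset.mem_image.mp hy
    have h1 := (RTS_mem G hG x).mp hx
    have h2 := helper36.FF.aeval_pow_card G x 1
    rw [pow_one, h1, zero_pow (Fintype.card_ne_zero)] at h2
    exact (RTS_mem G hG _).mpr h2
  · rw [Finset.card_image_of_injective _ hinj]

theorem RTS (F : Type*) [Field F] [Fintype F] [CharP F 2] : RTS_stmt F := by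
  classical
  have h3 : ∀ (G : F[X]) (f : AlgebraicClosure F → AlgebraicClosure F),
      ∑ x ∈ rs G, f (x ^ Fintype.card F) = ∑ x ∈ rs G, f x := by
    intro G f
    by_cases hG : G = 0
    · have : rs G = ∅ := by
        unfold rs
        rw [hG, aroots_zero, Multiset.toFinset_zero]
      rw [this, Finset.sum_empty, Finset.sum_empty]
    · have hinj : Function.Injective (fun x : AlgebraicClosure F => x ^ Fintype.card F) := by
        have := helper36.FF.pow_card_pow_injective (F := F) 1
        simpa using this
      have h := RTS_image G hG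
      calc ∑ x ∈ rs G, f (x ^ Fintype.card F)
          = ∑ y ∈ (rs G).image (fun x : AlgebraicClosure F => x ^ Fintype.card F), f y := by
            rw [Finset.sum_image (fun a _ b _ hab => hinj hab)]
        _ = ∑ x ∈ rs G, f x := by rw [h]
  refine ⟨?_, fun G hG x => RTS_mem G hG x, h3, ?_, ?_⟩
  · intro G hm hsq
    have hsep : G.Separable := PerfectField.separable_iff_squarefree.mpr hsq
    have hnd : (G.aroots (AlgebraicClosure F)).Nodup := by
      have := nodup_roots (hsep.map (f := algebraMap F (AlgebraicClosure F)))
      exact this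
    constructor
    · unfold rs
      rw [Multiset.toFinset_card_of_nodup hnd, helper36.FF.card_aroots]
    · have h1 : G.map (algebraMap F (AlgebraicClosure F)) =
          ((G.aroots (AlgebraicClosure F)).map fun a => X - C a).prod := by
        have hspl := IsAlgClosed.splits (G.map (algebraMap F (AlgebraicClosure F)))
        exact hspl.eq_prod_roots_of_monic (hm.map _)
      rw [h1]
      unfold pol rs
      rw [Finset.prod_eq_multiset_prod, Multiset.toFinset_val, Multiset.dedup_eq_self.mpr hnd]
  · intro G f hf
    have h4 : (∑ x ∈ rs G, f x) ^ Fintype.card F = ∑ x ∈ rs G, f x ^ Fintype.card F := by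
      have := map_sum (FiniteField.frobeniusAlgHom F (AlgebraicClosure F)) f (rs G)
      rw [FiniteField.coe_frobeniusAlgHom] at this
      exact this
    rw [h4, ← h3 G f]
    exact Finset.sum_congr rfl fun x hx => (hf x hx).symm
  · intro G H hG hH hc
    have hd : Disjoint (rs G) (rs H) := by
      rw [Finset.disjoint_left]
      intro x hx hx'
      have e1 := (RTS_mem G hG x).mp hx
      have e2 := (RTS_mem H hH x).mp hx'
      obtain ⟨u, v, huv⟩ := hc
      have := congrArg (aeval x) huv
      rw [map_add, map_mul, map_mul, e1, e2, mul_zero, mul_zero, add_zero, map_one] at this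
      exact zero_ne_one this
    refine ⟨hd, ?_⟩
    ext x
    rw [Finset.mem_disjUnion, RTS_mem _ (mul_ne_zero hG hH), RTS_mem G hG, RTS_mem H hH,
      map_mul, mul_eq_zero]

end Pool.Agent.FF2
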